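import Pool.Agent.Helper14.TK.StA

/-!
# Project T3K part A, module INTT: integrality of `psi`
-/

set_option autoImplicit false

namespace Pool.Agent.Helper65.TA

open Pool.Agent.Helper14.TK Pool.Agent.Helper14.T3 Pool.Agent.Helper14.CV Pool.Agent.Helper14.W3
open Pool.Agent.Helper78.W3
open Pool.Agent.Helper28.WK (SymP Tw Ok UIp)

/-- The group of complex numbers modulo the integers. -/
private abbrev CZ : Type := ℂ ⧸ (Int.castAddHom ℂ).range

private def mk (z : ℂ) : CZ := QuotientAddGroup.mk z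

private theorem mk_add (z w : ℂ) : mk (z + w) = mk z + mk w := rfl

private theorem mk_neg (z : ℂ) : mk (-z) = -mk z := rfl

private theorem mk_int (z : ℂ) (k : ℤ) : mk (z - k) = mk z := by
  have h : mk ((k : ℤ) : ℂ) = 0 := (QuotientAddGroup.eq_zero_iff _).2 ⟨k, rfl⟩
  rw [sub_eq_add_neg, mk_add, mk_neg, h, neg_zero, add_zero]

private theorem mk_zero (z : ℂ) (h : mk z = 0) : ∃ k : ℤ, (k : ℂ) = z := by
  obtain ⟨k, hk⟩ := (QuotientAddGroup.eq_zero_iff z).1 h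
  exact ⟨k, hk⟩

private theorem ne_zero_of_det' {a b c d : ℤ} (h : a * d - b * c ≠ 0) {p q : ℤ}
    (hpq : p ≠ 0 ∨ q ≠ 0) : a * p + b * q ≠ 0 ∨ c * p + d * q ≠ 0 := by
  by_contra hn
  push Not at hn
  obtain ⟨h1, h2⟩ := hn
  have h3 : (a * d - b * c) * p = 0 := by linear_combination d * h1 - b * h2
  have h4 : (a * d - b * c) * q = 0 := by linear_combination a * h2 - c * h1
  rcases hpq with hp | hq
  · exact hp ((mul_eq_zero.mp h3).resolve_left h)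
  · exact hq ((mul_eq_zero.mp h4).resolve_left h)

/-- MODULE INTT. -/
theorem hINTT : StINTT := by
  intro hUI m ψ G hψ hG
  have hne : ((1 : ℤ) ≠ 0 ∨ (0 : ℤ) ≠ 0) := Or.inl one_ne_zero
  -- the reduction modulo the integers
  let χ : ℤ → ℤ → CZ := fun p q => mk (ψ p q - ψ 1 0)
  have hχ : SymP 9 0 m χ := by
    refine ⟨?_, ?_⟩
    · intro k p q hk hpq
      change mk (ψ (k * p) (k * q) - ψ 1 0) = mk (ψ p q - ψ 1 0)
      rw [hψ.1 k p q hk hpq]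
    · intro a b c d hdet _ hc
      have hc3 : (3 : ℤ) ^ m ∣ c := by
        refine dvd_trans ?_ hc
        exact pow_dvd_pow_of_dvd (by norm_num) m
      obtain ⟨k, hk⟩ := hψ.2 a b c d hdet (by simp) hc3
      refine ⟨mk k, fun p q hpq => ?_⟩
      change mk (act a b c d ψ p q - ψ 1 0) = mk (ψ p q - ψ 1 0) + mk k
      rw [hk p q hpq, ← mk_add]
      congr 1
      ring
  obtain ⟨k0, hk0⟩ := hG
  have h3 : ∀ p q : ℤ, (p ≠ 0 ∨ q ≠ 0) → χ (3 * p) q = -χ p q + mk (-(2 * ψ 1 0) - k0) := by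
    intro p q hpq
    change mk (ψ (3 * p) q - ψ 1 0) = -mk (ψ p q - ψ 1 0) + mk (-(2 * ψ 1 0) - k0)
    have h1 : -act 3 0 0 1 ψ p q - ψ p q = (G p q : ℂ) + k0 := hk0 p q hpq
    have h2 : act 3 0 0 1 ψ p q = ψ (3 * p) q := by
      change ψ (3 * p + 0 * q) (0 * p + 1 * q) = ψ (3 * p) q
      congr 1 <;> ring
    rw [h2] at h1
    have e : ψ (3 * p) q - ψ 1 0 = -(ψ p q - ψ 1 0) + (-(2 * ψ 1 0) - k0) - (G p q : ℂ) := by
      linear_combination -h1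
    rw [← mk_neg, ← mk_add, e, mk_int]
  have hu : EqC (act ((9 : ℕ) : ℤ) 0 0 1 χ) χ := by
    refine ⟨0, fun p q hpq => ?_⟩
    have h3p : (3 * p ≠ 0 ∨ q ≠ 0) := by
      rcases hpq with h | h
      · exact Or.inl (mul_ne_zero (by norm_num) h)
      · exact Or.inr h
    have h1 := h3 (3 * p) q h3p
    rw [h3 p q hpq] at h1
    have h2 : act ((9 : ℕ) : ℤ) 0 0 1 χ p q = χ (3 * (3 * p)) q := by
      change χ (((9 : ℕ) : ℤ) * p + 0 * q) (0 * p + 1 * q) = χ (3 * (3 * p)) q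
      congr 1 <;> push_cast <;> ring
    rw [h2, h1]
    abel
  obtain ⟨c, hc⟩ := hUI 9 (by norm_num) CZ inferInstance 0 m χ hχ hu
  have hc0 : c = 0 := by
    have h1 : χ 1 0 = (0 : ℤ → ℤ → CZ) 1 0 + c := hc 1 0 hne
    have h2 : χ 1 0 = 0 := by
      change mk (ψ 1 0 - ψ 1 0) = 0
      rw [sub_self]
      rfl
    rw [h2] at h1
    change 0 = 0 + c at h1
    rw [zero_add] at h1
    exact h1.symm
  have hint : ∀ p q : ℤ, (p ≠ 0 ∨ q ≠ 0) → ∃ k : ℤ, (k : ℂ) = ψ p q - ψ 1 0 := by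
    intro p q hpq
    have h1 : χ p q = (0 : ℤ → ℤ → CZ) p q + c := hc p q hpq
    rw [hc0, add_zero] at h1
    exact mk_zero _ h1
  have hex : ∀ p q : ℤ, ∃ k : ℤ, (p ≠ 0 ∨ q ≠ 0) → (k : ℂ) = ψ p q - ψ 1 0 := by
    intro p q
    by_cases hpq : p ≠ 0 ∨ q ≠ 0
    · obtain ⟨k, hk⟩ := hint p q hpq
      exact ⟨k, fun _ => hk⟩
    · exact ⟨0, fun h => absurd h hpq⟩
  choose ψ' hψ' using hex
  refine ⟨ψ', ⟨?_, ?_⟩, ?_⟩
  · intro k p q hk hpq
    have hkpq : k * p ≠ 0 ∨ k * q ≠ 0 := by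
      rcases hpq with h | h
      · exact Or.inl (mul_ne_zero hk h)
      · exact Or.inr (mul_ne_zero hk h)
    have h1 := hψ' (k * p) (k * q) hkpq
    rw [hψ.1 k p q hk hpq, ← hψ' p q hpq] at h1
    exact_mod_cast h1
  · intro a b c' d hdet hb hc'
    obtain ⟨k, hk⟩ := hψ.2 a b c' d hdet hb hc'
    have hdet' : a * d - b * c' ≠ 0 := by rw [hdet]; exact one_ne_zero
    have key : ∀ p q : ℤ, (p ≠ 0 ∨ q ≠ 0) →
        ((ψ' (a * p + b * q) (c' * p + d * q) : ℤ) : ℂ) = (ψ' p q : ℤ) + k := by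
      intro p q hpq
      have h1 := hψ' _ _ (ne_zero_of_det' hdet' hpq)
      have h2 : ψ (a * p + b * q) (c' * p + d * q) = ψ p q + k := hk p q hpq
      rw [h1, hψ' p q hpq, h2]
      ring
    have hk0' := key 1 0 hne
    refine ⟨ψ' (a * 1 + b * 0) (c' * 1 + d * 0) - ψ' 1 0, fun p q hpq => ?_⟩
    have h3' := key p q hpq
    have h4 : ((ψ' (a * p + b * q) (c' * p + d * q) : ℤ) : ℂ) =
        ((ψ' p q + (ψ' (a * 1 + b * 0) (c' * 1 + d * 0) - ψ' 1 0) : ℤ) : ℂ) := by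
      push_cast
      linear_combination h3' - hk0'
    exact_mod_cast h4
  · have hdet' : (3 : ℤ) * 1 - 0 * 0 ≠ 0 := by norm_num
    have key : ∀ p q : ℤ, (p ≠ 0 ∨ q ≠ 0) →
        -((ψ' (3 * p + 0 * q) (0 * p + 1 * q) : ℤ) : ℂ) - (ψ' p q : ℤ) =
          (G p q : ℤ) + (k0 + 2 * ψ 1 0) := by
      intro p q hpq
      have h1 := hψ' _ _ (ne_zero_of_det' hdet' hpq)
      have h2 : -ψ (3 * p + 0 * q) (0 * p + 1 * q) - ψ p q = (G p q : ℂ) + k0 := hk0 p q hpq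
      rw [h1, hψ' p q hpq]
      linear_combination h2
    have hk1 : -((ψ' (3 * 1 + 0 * 0) (0 * 1 + 1 * 0) : ℤ) : ℂ) - (ψ' 1 0 : ℤ) =
        (G 1 0 : ℤ) + (k0 + 2 * ψ 1 0) := key 1 0 hne
    generalize ψ' (3 * 1 + 0 * 0) (0 * 1 + 1 * 0) = N at hk1
    refine ⟨-N - ψ' 1 0 - G 1 0, fun p q hpq => ?_⟩
    have h3' := key p q hpq
    have h4 : ((-ψ' (3 * p + 0 * q) (0 * p + 1 * q) - ψ' p q : ℤ) : ℂ) =
        ((G p q + (-N - ψ' 1 0 - G 1 0) : ℤ) : ℂ) := by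
      push_cast
      linear_combination h3' - hk1
    have h5 : -ψ' (3 * p + 0 * q) (0 * p + 1 * q) - ψ' p q =
        G p q + (-N - ψ' 1 0 - G 1 0) := by
      exact_mod_cast h4
    exact h5

end Pool.Agent.Helper65.TA
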